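import Pool.Agent.L7h26.HomExtDefs

open CategoryTheory CategoryTheory.Limits CategoryTheory.Abelian

noncomputable section

namespace L7h26.HomExt

universe u v w t x

section General

variable {k : Type u} [Field k] {C : Type v} [Category.{w} C] [Abelian C] [Linear k C]
variable {ι : Type x} {X : ι → C} [HasExt.{t} C]

namespace Presentation

variable (P : Presentation.{u, v, w, t, x} k X)

/-- the product on `Hom ⊕ Ext^1` -/
def mul {A B D : C} (a : (A ⟶ B) × Ext.{t} A B 1) (b : (B ⟶ D) × Ext.{t} B D 1) :
    (A ⟶ D) × Ext.{t} A D 1 :=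
  (a.1 ≫ b.1, (Ext.mk₀ a.1).comp b.2 (zero_add 1) + a.2.comp (Ext.mk₀ b.1) (add_zero 1))

theorem eval_nil (i : P.Vert) : P.eval (Quiver.Path.nil : Quiver.Path i i) = (𝟙 (X i), 0) := rfl

theorem eval_cons_inl {i j l : P.Vert} (p : Quiver.Path i j) (a : P.homArr j l) :
    P.eval (p.cons (Sum.inl a : j ⟶ l)) =
      ((P.eval p).1 ≫ P.homVal a, (P.eval p).2.comp (Ext.mk₀ (P.homVal a)) (add_zero 1)) := rfl

theorem eval_cons_inr {i j l : P.Vert} (p : Quiver.Path i j) (e : P.extArr j l) :
    P.eval (p.cons (Sum.inr e : j ⟶ l)) =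
      (0, (Ext.mk₀ (P.eval p).1).comp (P.extVal e) (zero_add 1)) := rfl

theorem eval_comp {i j l : P.Vert} (p : Quiver.Path i j) (q : Quiver.Path j l) :
    P.eval (p.comp q) = mul (P.eval p) (P.eval q) := by
  induction q with
  | nil =>
    rw [Quiver.Path.comp_nil, eval_nil]
    ext <;> simp [mul]
  | cons q a ih =>
    rw [Quiver.Path.comp_cons]
    rcases a with a | e
    · rw [eval_cons_inl, ih, eval_cons_inl]
      refine Prod.ext ?_ ?_
      · simp [mul]
      · simp only [mul]
        rw [Ext.add_comp, Ext.comp_assoc_of_third_deg_zero, Ext.comp_assoc_of_third_deg_zero,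
          Ext.mk₀_comp_mk₀]
    · rw [eval_cons_inr, ih, eval_cons_inr]
      refine Prod.ext ?_ ?_
      · simp [mul]
      · simp only [mul]
        rw [Ext.mk₀_zero, Ext.comp_zero, add_zero, ← Ext.mk₀_comp_mk₀,
          Ext.comp_assoc_of_second_deg_zero]

/-- left multiplication -/
def mulLeft {A B D : C} (a : (A ⟶ B) × Ext.{t} A B 1) :
    ((B ⟶ D) × Ext.{t} B D 1) →ₗ[k] ((A ⟶ D) × Ext.{t} A D 1) where
  toFun b := mul a b
  map_add' b b' := by
    refine Prod.ext ?_ ?_
    · simp [mul]
    · simp [mul, Ext.mk₀_add]; abel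
  map_smul' c b := by
    refine Prod.ext ?_ ?_
    · simp [mul]
    · simp [mul, Ext.mk₀_smul]

/-- right multiplication -/
def mulRight {A B D : C} (b : (B ⟶ D) × Ext.{t} B D 1) :
    ((A ⟶ B) × Ext.{t} A B 1) →ₗ[k] ((A ⟶ D) × Ext.{t} A D 1) where
  toFun a := mul a b
  map_add' a a' := by
    refine Prod.ext ?_ ?_
    · simp [mul]
    · simp [mul, Ext.mk₀_add]; abel
  map_smul' c a := by
    refine Prod.ext ?_ ?_
    · simp [mul]
    · simp [mul, Ext.mk₀_smul]

theorem mem_R {i j : P.Vert} (r : Quiver.Path i j →₀ k) :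
    r ∈ P.R i j ↔ Finsupp.linearCombination k (fun p : Quiver.Path i j => P.eval p) r = 0 :=
  LinearMap.mem_ker

/-- The relations form an ideal of the path algebra of `Q^χ`. -/
def Rideal : PathIdeal k P.Vert where
  comp := P.R
  left_stable := by
    intro i j l p r hr
    rw [mem_R] at hr ⊢
    rw [leftMul]
    rw [Finsupp.linearCombination_mapDomain]
    have h : (fun q : Quiver.Path i l => P.eval q) ∘ (fun q : Quiver.Path j l => p.comp q)
        = fun q : Quiver.Path j l => mulLeft (k := k) (P.eval p) (P.eval q) := by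
      funext q
      exact P.eval_comp p q
    rw [h]
    have h2 := congrArg (mulLeft (k := k) (D := X l) (P.eval p)) hr
    rw [map_zero, Finsupp.linearCombination_apply, map_finsuppSum] at h2
    rw [Finsupp.linearCombination_apply]
    simpa [Finsupp.sum] using h2
  right_stable := by
    intro i j l q r hr
    rw [mem_R] at hr ⊢
    rw [rightMul]
    rw [Finsupp.linearCombination_mapDomain]
    have h : (fun p : Quiver.Path i l => P.eval p) ∘ (fun p : Quiver.Path i j => p.comp q)
        = fun p : Quiver.Path i j => mulRight (k := k) (P.eval q) (P.eval p) := by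
      funext p
      exact P.eval_comp p q
    rw [h]
    have h2 := congrArg (mulRight (k := k) (A := X i) (P.eval q)) hr
    rw [map_zero, Finsupp.linearCombination_apply, map_finsuppSum] at h2
    rw [Finsupp.linearCombination_apply]
    simpa [Finsupp.sum] using h2

end Presentation

end General

section Ideals

variable {k : Type u} [Field k] {V : Type v} [Quiver.{w} V]

/-- the monomial part of an ideal -/
def monoPart (I : PathIdeal k V) : PathIdeal k V where
  comp i j := Finsupp.supported k k {p | Finsupp.single p (1 : k) ∈ I.comp i j}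
  left_stable := by
    intro i j l p r hr
    rw [Finsupp.mem_supported] at hr ⊢
    intro q hq
    classical
    have h1 := Finsupp.mapDomain_support hq
    rw [Finset.mem_image] at h1
    obtain ⟨q', hq', rfl⟩ := h1
    have h2 : Finsupp.single q' (1 : k) ∈ I.comp j l := hr hq'
    have h3 := I.left_stable i j l p _ h2
    rw [leftMul, Finsupp.mapDomain_single] at h3
    exact h3
  right_stable := by
    intro i j l q r hr
    rw [Finsupp.mem_supported] at hr ⊢
    intro p hp
    classical
    have h1 := Finsupp.mapDomain_support hp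
    rw [Finset.mem_image] at h1
    obtain ⟨p', hp', rfl⟩ := h1
    have h2 : Finsupp.single p' (1 : k) ∈ I.comp i j := hr hp'
    have h3 := I.right_stable i j l q _ h2
    rw [rightMul, Finsupp.mapDomain_single] at h3
    exact h3

theorem single_mem_of_generated (I : PathIdeal k V) (h : GeneratedByMonomials k I.comp)
    {i j : V} {r : Quiver.Path i j →₀ k} (hr : r ∈ I.comp i j) {p : Quiver.Path i j}
    (hp : r p ≠ 0) : Finsupp.single p (1 : k) ∈ I.comp i j := by
  obtain ⟨S, -, hS, hJ⟩ := h
  have h1 := hJ (monoPart I) (by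
    intro i j s hs
    show Finsupp.single s (1 : k) ∈ Finsupp.supported k k _
    rw [Finsupp.mem_supported]
    intro q hq
    have : q = s := by
      by_contra hne
      have h0 : (Finsupp.single s (1 : k)) q = 0 := Finsupp.single_eq_of_ne hne
      exact (Finsupp.mem_support_iff.mp hq) h0
    subst this
    exact hS i j q hs) i j hr
  have h2 : r ∈ Finsupp.supported k k {p | Finsupp.single p (1 : k) ∈ I.comp i j} := h1
  rw [Finsupp.mem_supported] at h2
  exact h2 (Finsupp.mem_support_iff.mpr hp)

end Ideals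

section Exist

/-- A basis of `U` modulo `W`, indexed by `Fin n`. -/
theorem exists_basis_mod {k : Type u} [Field k] {V : Type v} [AddCommGroup V] [Module k V]
    [Module.Finite k V] (W U : Submodule k V) (hWU : W ≤ U) :
    ∃ (n : ℕ) (b : Fin n → V), (∀ a, b a ∈ U) ∧
      LinearIndependent k (fun a => W.mkQ (b a)) ∧
      Submodule.span k (Set.range b) ⊔ W = U := by
  classical
  let Ub : Submodule k (V ⧸ W) := Submodule.map W.mkQ U
  let B := Module.finBasis k Ub
  have hch : ∀ a, ∃ v ∈ U, W.mkQ v = ((B a : Ub) : V ⧸ W) :=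
    fun a => Submodule.mem_map.mp (B a).2
  choose b hbU hb using hch
  refine ⟨_, b, hbU, ?_, ?_⟩
  · have h1 : (fun a => W.mkQ (b a)) = fun a => ((B a : Ub) : V ⧸ W) := funext hb
    rw [h1]
    exact B.linearIndependent.map' Ub.subtype (Submodule.ker_subtype _)
  · have h2 : Submodule.map W.mkQ (Submodule.span k (Set.range b)) = Ub := by
      rw [Submodule.map_span, ← Set.range_comp]
      have h4 : ((W.mkQ : V → V ⧸ W) ∘ b) = (Ub.subtype : Ub → V ⧸ W) ∘ B := funext hb
      rw [h4, Set.range_comp, ← Submodule.map_span, B.span_eq, Submodule.map_top,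
        Submodule.range_subtype]
    have h3 := congrArg (Submodule.comap W.mkQ) h2
    rw [Submodule.comap_map_mkQ, Submodule.comap_map_mkQ, sup_eq_right.mpr hWU] at h3
    rw [sup_comm]
    exact h3

variable {k : Type u} [Field k] {C : Type v} [Category.{w} C] [Abelian C] [Linear k C]
variable {ι : Type x} {X : ι → C} [HasExt.{t} C]

omit [HasExt.{t} C] in
theorem mem_rad {A B : C} (f : A ⟶ B) :
    f ∈ rad k A B ↔ ∀ g : B ⟶ A, IsIso (𝟙 A - f ≫ g) := Iff.rfl

omit [HasExt.{t} C] in
theorem radSq_le (i j : ι) : radSq k X i j ≤ rad k (X i) (X j) := by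
  rw [radSq, Submodule.span_le]
  rintro h ⟨l, f, g, hf, -, rfl⟩
  show f ≫ g ∈ rad k (X i) (X j)
  rw [mem_rad] at hf ⊢
  intro g'
  have := hf (g ≫ g')
  simpa using this

theorem exists_presentation (hfin : ∀ i j, Module.Finite k (X i ⟶ X j))
    (hext : ∀ i j, Module.Finite k (Ext.{t} (X i) (X j) 1)) :
    Nonempty (Presentation.{u, v, w, t, x} k X) := by
  have h1 : ∀ i j, ∃ (n : ℕ) (b : Fin n → (X i ⟶ X j)),
      IsBasisMod (radSq k X i j) (rad k (X i) (X j)) b := by
    intro i j
    have := hfin i j
    exact exists_basis_mod (radSq k X i j) (rad k (X i) (X j)) (radSq_le i j)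
  have h2 : ∀ i j, ∃ (n : ℕ) (b : Fin n → Ext.{t} (X i) (X j) 1),
      IsBasisMod (radExt k X i j) ⊤ b := by
    intro i j
    have := hext i j
    exact exists_basis_mod (radExt k X i j) ⊤ le_top
  choose n b hb using h1
  choose m c hc using h2
  exact ⟨{
    homArr := fun i j => Fin (n i j)
    extArr := fun i j => Fin (m i j)
    homVal := fun {i j} a => b i j a
    extVal := fun {i j} a => c i j a
    hom_basis := fun i j => hb i j
    ext_basis := fun i j => hc i j }⟩

end Exist

end L7h26.HomExt
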