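import Pool.Agent.L7h26.HomExtSub
import Pool.Agent.L7h26.HomExtGen

open CategoryTheory CategoryTheory.Limits CategoryTheory.Abelian

noncomputable section

set_option backward.isDefEq.respectTransparency false
set_option backward.isDefEq.respectTransparency.types false

namespace L7h26.HomExt

universe u

/-- the vertices of the quiver `D_4` -/
inductive D4 : Type
  | o | a | b | z

/-- the arrows `a → o`, `b → o`, `o → z` -/
inductive D4Hom : D4 → D4 → Type
  | ao : D4Hom D4.a D4.o
  | bo : D4Hom D4.b D4.o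
  | oz : D4Hom D4.o D4.z

instance : Quiver.{0} D4 := ⟨D4Hom⟩

instance : Finite D4 := by
  classical
  refine Finite.of_injective (fun v : D4 => (match v with
    | D4.o => 0 | D4.a => 1 | D4.b => 2 | D4.z => 3 : Fin 4)) ?_
  intro v w h
  cases v <;> cases w <;> first | rfl | (exact absurd h (by decide))

instance (v w : D4) : Subsingleton (v ⟶ w) := by
  constructor
  intro e f
  change D4Hom v w at e f
  cases e <;> cases f <;> rfl

/-- the height -/
def ht : D4 → ℕ
  | D4.o => 1 | D4.a => 0 | D4.b => 0 | D4.z => 2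

theorem ht_arrow {v w : D4} (e : v ⟶ w) : ht w = ht v + 1 := by
  change D4Hom v w at e
  cases e <;> rfl

theorem ht_path {v w : D4} (p : Quiver.Path v w) : ht w = ht v + p.length := by
  induction p with
  | nil => rfl
  | cons p e ih => rw [ht_arrow e, ih, Quiver.Path.length_cons]; ring

theorem finiteAcyclic_D4 : FiniteAcyclic D4 where
  vertices := inferInstance
  arrows := fun v w => Finite.of_subsingleton
  acyclic := by
    intro v p
    have h := ht_path p
    have h2 : p.length = 0 := by omega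
    exact Quiver.Path.eq_nil_of_length_zero p h2

theorem source_eq {v : D4} (w : D4) (hw : ht w = 0) (p : Quiver.Path v w) : v = w := by
  cases p with
  | nil => rfl
  | cons p e =>
    have := ht_arrow e
    omega

theorem path_unique {v w : D4} (p q : Quiver.Path v w) : p = q := by
  induction p with
  | nil => exact (finiteAcyclic_D4.acyclic _ q).symm
  | @cons u w p e ih =>
    cases q with
    | nil => exact finiteAcyclic_D4.acyclic _ _
    | @cons u' _ q e' =>
      have huu : u = u' := by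
        have e1 : D4Hom u w := e
        have e2 : D4Hom u' w := e'
        cases e1 with
        | oz => cases e2; rfl
        | ao =>
          have h1 : v = D4.a := source_eq D4.a rfl p
          cases e2 with
          | ao => rfl
          | bo =>
            have h2 : v = D4.b := source_eq D4.b rfl q
            rw [h1] at h2
            exact absurd h2 (by intro h; cases h)
        | bo =>
          have h1 : v = D4.b := source_eq D4.b rfl p
          cases e2 with
          | bo => rfl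
          | ao =>
            have h2 : v = D4.a := source_eq D4.a rfl q
            rw [h1] at h2
            exact absurd h2 (by intro h; cases h)
      subst huu
      rw [ih q, Subsingleton.elim e e']

instance (v w : D4) : Subsingleton (Quiver.Path v w) := ⟨path_unique⟩

theorem path_to_z (v : D4) : Nonempty (Quiver.Path v D4.z) := by
  cases v
  · exact ⟨(Quiver.Path.nil : Quiver.Path D4.o D4.o).cons D4Hom.oz⟩
  · exact ⟨((Quiver.Path.nil : Quiver.Path D4.a D4.a).cons D4Hom.ao).cons D4Hom.oz⟩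
  · exact ⟨((Quiver.Path.nil : Quiver.Path D4.b D4.b).cons D4Hom.bo).cons D4Hom.oz⟩
  · exact ⟨Quiver.Path.nil⟩

/-- the supports of the four members -/
def sup4 : Fin 4 → D4 → Prop
  | 0 => fun v => v = D4.z
  | 1 => fun v => v ≠ D4.b
  | 2 => fun v => v ≠ D4.a
  | 3 => fun _ => True

/-- the support of the kernel -/
def supK : D4 → Prop := fun v => v ≠ D4.a ∧ v ≠ D4.b

theorem up_sup4 (i : Fin 4) : Up (sup4 i) := by
  intro v w e h
  change D4Hom v w at e
  fin_cases i <;> cases e <;> simp_all [sup4]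

theorem up_supK : Up supK := by
  intro v w e h
  change D4Hom v w at e
  cases e <;> simp_all [supK]

theorem sup4_z (i : Fin 4) : sup4 i D4.z := by
  fin_cases i <;> simp [sup4]

/-- the four modules -/
def M (k : Type u) [Field k] (i : Fin 4) : Rep k D4 := sub k (sup4 i) (up_sup4 i)

variable {k : Type u} [Field k]

theorem projective_M (i : Fin 4) (hi : i ≠ 3) : Projective (M k i) := by
  have key : ∃ v0 : D4, ∀ w, sup4 i w ↔ Nonempty (Quiver.Path v0 w) := by
    have hno : ∀ {v w : D4}, ht w < ht v ∨ (ht w = ht v ∧ v ≠ w) → ¬ Nonempty (Quiver.Path v w) := by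
      rintro v w h ⟨p⟩
      have h1 := ht_path p
      rcases h with h | ⟨h, hne⟩
      · omega
      · have h2 : p.length = 0 := by omega
        exact hne (Quiver.Path.eq_of_length_zero p h2)
    fin_cases i
    · refine ⟨D4.z, fun w => ?_⟩
      cases w
      · exact iff_of_false (by simp [sup4]) (hno (Or.inl (by decide)))
      · exact iff_of_false (by simp [sup4]) (hno (Or.inl (by decide)))
      · exact iff_of_false (by simp [sup4]) (hno (Or.inl (by decide)))
      · exact iff_of_true (by simp [sup4]) ⟨Quiver.Path.nil⟩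
    · refine ⟨D4.a, fun w => ?_⟩
      cases w
      · exact iff_of_true (by simp [sup4]) ⟨(Quiver.Path.nil : Quiver.Path D4.a D4.a).cons D4Hom.ao⟩
      · exact iff_of_true (by simp [sup4]) ⟨Quiver.Path.nil⟩
      · exact iff_of_false (by simp [sup4]) (hno (Or.inr ⟨rfl, by intro h; cases h⟩))
      · exact iff_of_true (by simp [sup4]) (path_to_z _)
    · refine ⟨D4.b, fun w => ?_⟩
      cases w
      · exact iff_of_true (by simp [sup4]) ⟨(Quiver.Path.nil : Quiver.Path D4.b D4.b).cons D4Hom.bo⟩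
      · exact iff_of_false (by simp [sup4]) (hno (Or.inr ⟨rfl, by intro h; cases h⟩))
      · exact iff_of_true (by simp [sup4]) ⟨Quiver.Path.nil⟩
      · exact iff_of_true (by simp [sup4]) (path_to_z _)
    · exact absurd rfl hi
  obtain ⟨v0, h⟩ := key
  exact projective_sub v0 h (fun w => inferInstance)

/-- supports compare -/
theorem hom_M_zero {i j : Fin 4} (h : ∃ v, sup4 i v ∧ ¬ sup4 j v) (f : M k i ⟶ M k j) : f = 0 := by
  obtain ⟨c, hc⟩ := hom_scalar (sup4_z i) (fun v _ => path_to_z v) f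
  obtain ⟨v, hv, hv'⟩ := h
  have h0 := hom_zero_of_scalar hc hv hv'
  subst h0
  exact eq_zero_of hc

theorem hom_M_scalar {i j : Fin 4} (h : ∀ v, sup4 i v → sup4 j v) (f : M k i ⟶ M k j) :
    ∃ c : k, f = c • incl (up_sup4 i) (up_sup4 j) h := by
  obtain ⟨c, hc⟩ := hom_scalar (sup4_z i) (fun v _ => path_to_z v) f
  exact ⟨c, eq_smul_incl hc h⟩

theorem incl_ne_zero {i j : Fin 4} (h : ∀ v, sup4 i v → sup4 j v) :
    incl (k := k) (up_sup4 i) (up_sup4 j) h ≠ 0 := by
  intro h0
  have h1 := congrArg (fun F => val (F.app D4.z (elt (up_sup4 i) (1 : k) (Or.inl (sup4_z i))))) h0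
  have h2 : (1 : k) = 0 := h1
  exact one_ne_zero h2

theorem end_M_scalar (i : Fin 4) (f : M k i ⟶ M k i) : ∃ c : k, f = c • 𝟙 (M k i) := by
  obtain ⟨c, hc⟩ := hom_M_scalar (fun _ hv => hv) f
  exact ⟨c, hc⟩

theorem id_M_ne_zero (i : Fin 4) : 𝟙 (M k i) ≠ 0 := incl_ne_zero (fun _ hv => hv)


theorem finite_M (i : Fin 4) (v : D4) : Module.Finite k ((M k i).obj v) := by
  change Module.Finite k (supp k (sup4 i v))
  infer_instance

theorem isZero_of_id_eq_zero {C : Type*} [Category C] [Preadditive C] {Y : C} (h : 𝟙 Y = 0) :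
    IsZero Y := (IsZero.iff_id_eq_zero Y).mpr h

theorem indecomposable_M (i : Fin 4) : Indecomposable (M k i) := by
  refine ⟨fun h => id_M_ne_zero i ((IsZero.iff_id_eq_zero _).mp h), ?_⟩
  intro Y Z e
  obtain ⟨c, hc⟩ := end_M_scalar i (e.hom ≫ biprod.fst ≫ biprod.inl ≫ e.inv)
  have h1 : (biprod.fst ≫ biprod.inl : Y ⊞ Z ⟶ Y ⊞ Z) = c • 𝟙 (Y ⊞ Z) := by
    have h2 : e.inv ≫ (e.hom ≫ biprod.fst ≫ biprod.inl ≫ e.inv) ≫ e.hom
        = e.inv ≫ (c • 𝟙 (M k i)) ≫ e.hom := by rw [hc]
    simpa using h2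
  by_cases h0 : c = 0
  · left
    rw [h0, zero_smul] at h1
    apply isZero_of_id_eq_zero
    have h3 : (biprod.inl : Y ⟶ Y ⊞ Z) ≫ ((biprod.fst : Y ⊞ Z ⟶ Y) ≫ (biprod.inl : Y ⟶ Y ⊞ Z)) ≫
        (biprod.fst : Y ⊞ Z ⟶ Y) = 0 := by
      rw [h1]; simp
    simpa using h3
  · right
    apply isZero_of_id_eq_zero
    have h3 : (biprod.inr : Z ⟶ Y ⊞ Z) ≫ ((biprod.fst : Y ⊞ Z ⟶ Y) ≫ (biprod.inl : Y ⟶ Y ⊞ Z)) ≫
        (biprod.snd : Y ⊞ Z ⟶ Z) = 0 := by simp
    rw [h1] at h3
    have h4 : c • 𝟙 Z = 0 := by simpa using h3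
    exact (smul_eq_zero.mp h4).resolve_left h0

/-- the inclusion of the kernel in `M 1` -/
def k1 : sub k supK up_supK ⟶ M k 1 := incl _ _ (fun _ hv => hv.2)
/-- the inclusion of the kernel in `M 2` -/
def k2 : sub k supK up_supK ⟶ M k 2 := incl _ _ (fun _ hv => hv.1)
/-- the inclusion of `M i` in `M 3` -/
def toTop (i : Fin 4) : M k i ⟶ M k 3 := incl _ _ (fun _ _ => trivial)

instance : Mono (k1 (k := k)) := mono_incl _
instance : Mono (k2 (k := k)) := mono_incl _
instance (i : Fin 4) : Mono (toTop (k := k) i) := mono_incl _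

theorem k1_toTop : k1 (k := k) ≫ toTop 1 = k2 ≫ toTop 2 := rfl

/-- the short exact sequence -/
def ses (k : Type u) [Field k] : ShortComplex (Rep k D4) :=
  ShortComplex.mk (biprod.lift k1 (-k2) : sub k supK up_supK ⟶ M k 1 ⊞ M k 2)
    (biprod.desc (toTop 1) (toTop 2)) (by
      rw [biprod.lift_desc, Preadditive.neg_comp, k1_toTop, add_neg_cancel])

theorem ses_shortExact : (ses k).ShortExact := by
  have hmono : Mono (biprod.lift k1 (-k2) : sub k supK up_supK ⟶ M k 1 ⊞ M k 2) := by
    have h : (biprod.lift k1 (-k2) : sub k supK up_supK ⟶ M k 1 ⊞ M k 2) ≫ biprod.fst = k1 :=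
      biprod.lift_fst _ _
    have : Mono ((biprod.lift k1 (-k2) : sub k supK up_supK ⟶ M k 1 ⊞ M k 2) ≫ biprod.fst) := by
      rw [h]; infer_instance
    exact mono_of_mono _ biprod.fst
  have hepi : Epi (biprod.desc (toTop 1) (toTop 2) : M k 1 ⊞ M k 2 ⟶ M k 3) := by
    have hv : ∀ v, Epi ((biprod.desc (toTop 1) (toTop 2) : M k 1 ⊞ M k 2 ⟶ M k 3).app v) := by
      intro v
      rw [ModuleCat.epi_iff_surjective]
      intro x
      by_cases h : (v : D4) = D4.b
      · refine ⟨(biprod.inr : M k 2 ⟶ M k 1 ⊞ M k 2).app v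
          (elt (up_sup4 2) (val x) (Or.inl (by rw [h]; simp [sup4]))), ?_⟩
        have h1 : (biprod.inr : M k 2 ⟶ M k 1 ⊞ M k 2) ≫ biprod.desc (toTop 1) (toTop 2)
          = toTop 2 := biprod.inr_desc _ _
        have h2 := congrArg (fun F => F.app v
          (elt (up_sup4 2) (val x) (Or.inl (by rw [h]; simp [sup4])))) h1
        exact h2
      · refine ⟨(biprod.inl : M k 1 ⟶ M k 1 ⊞ M k 2).app v
          (elt (up_sup4 1) (val x) (Or.inl h)), ?_⟩
        have h1 : (biprod.inl : M k 1 ⟶ M k 1 ⊞ M k 2) ≫ biprod.desc (toTop 1) (toTop 2)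
          = toTop 1 := biprod.inl_desc _ _
        have h2 := congrArg (fun F => F.app v
          (elt (up_sup4 1) (val x) (Or.inl h))) h1
        exact h2
    exact NatTrans.epi_of_epi_app _
  have : Mono (ses k).f := hmono
  have : Epi (ses k).g := hepi
  refine { exact := ?_ }
  refine ShortComplex.exact_of_f_is_kernel _ (KernelFork.IsLimit.ofι' _ _ ?_)
  intro W g hg
  have hg1 : (g ≫ biprod.fst) ≫ toTop (k := k) 1 + (g ≫ biprod.snd) ≫ toTop 2 = 0 := by
    have h1 : g ≫ biprod.desc (toTop 1) (toTop 2) = 0 := hg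
    rw [biprod.desc_eq] at h1
    simpa using h1
  have hval : ∀ v (x : W.obj v), val ((g ≫ biprod.fst).app v x) + val ((g ≫ biprod.snd).app v x) = 0 := by
    intro v x
    have h1 := congrArg (fun F => val (F.app v x)) hg1
    exact h1
  have hfac : ∃ f' : W ⟶ sub k supK up_supK, f' ≫ k1 = g ≫ biprod.fst := by
    apply factor
    intro v x
    rcases val_prop ((g ≫ biprod.fst).app v x) with h | h
    · rcases val_prop ((g ≫ biprod.snd).app v x) with h' | h'
      · exact Or.inl ⟨h', h⟩
      · right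
        have h2 := hval v x
        rw [h', add_zero] at h2
        exact h2
    · exact Or.inr h
  refine ⟨hfac.choose, ?_⟩
  have hf' := hfac.choose_spec
  show hfac.choose ≫ biprod.lift k1 (-k2) = g
  apply biprod.hom_ext
  · rw [Category.assoc, biprod.lift_fst, hf']
  · rw [Category.assoc, biprod.lift_snd]
    rw [← cancel_mono (toTop 2), Preadditive.comp_neg, Preadditive.neg_comp, Category.assoc,
      ← k1_toTop, ← Category.assoc, hf']
    rw [neg_eq_iff_add_eq_zero]
    exact hg1

instance : Projective (M k 1) := projective_M 1 (by decide)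
instance : Projective (M k 2) := projective_M 2 (by decide)

/-- every morphism from the kernel to a member extends -/
theorem extend (i : Fin 4) (y : sub k supK up_supK ⟶ M k i) :
    ∃ y' : M k 1 ⊞ M k 2 ⟶ M k i, (ses k).f ≫ y' = y := by
  have hK : supK D4.z := ⟨(by intro h; cases h), (by intro h; cases h)⟩
  obtain ⟨c, hc⟩ := hom_scalar hK (fun v _ => path_to_z v) y
  by_cases h1 : ∀ v, sup4 1 v → sup4 i v
  · refine ⟨biprod.desc (c • incl (up_sup4 1) (up_sup4 i) h1) 0, ?_⟩
    show biprod.lift k1 (-k2) ≫ biprod.desc (c • incl (up_sup4 1) (up_sup4 i) h1) 0 = y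
    rw [biprod.lift_desc, comp_zero, add_zero, Linear.comp_smul]
    exact (eq_smul_incl hc (fun v hv => h1 v hv.2)).symm
  · by_cases h2 : ∀ v, sup4 2 v → sup4 i v
    · refine ⟨biprod.desc 0 (-(c • incl (up_sup4 2) (up_sup4 i) h2)), ?_⟩
      show biprod.lift k1 (-k2) ≫ biprod.desc 0 (-(c • incl (up_sup4 2) (up_sup4 i) h2)) = y
      rw [biprod.lift_desc, comp_zero, zero_add, Preadditive.neg_comp, Preadditive.comp_neg, neg_neg,
        Linear.comp_smul]
      exact (eq_smul_incl hc (fun v hv => h2 v hv.1)).symm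
    · have hi : i = 0 := by
        fin_cases i
        · rfl
        · exact absurd (fun v hv => hv) h1
        · exact absurd (fun v hv => hv) h2
        · exact absurd (fun v hv => trivial) h2
      subst hi
      have h0 := hom_zero_of_scalar (v := D4.o) hc
        ⟨(by intro h; cases h), (by intro h; cases h)⟩ (by intro h; cases h)
      subst h0
      refine ⟨0, ?_⟩
      rw [comp_zero]
      exact (eq_zero_of hc).symm

theorem ext_M (i j : Fin 4) (e : Ext.{u + 1} (M k i) (M k j) 1) : e = 0 := by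
  by_cases hi : i = 3
  · subst hi
    have : Projective (ses k).X₂ := by
      show Projective (M k 1 ⊞ M k 2)
      infer_instance
    obtain ⟨x, hx⟩ := Ext.contravariant_sequence_exact₃ (ses_shortExact (k := k)) (M k j) e
      (Ext.eq_zero_of_projective _) (n₀ := 0) (by rfl)
    obtain ⟨y, rfl⟩ := (Ext.mk₀_bijective _ _).2 x
    obtain ⟨y', hy'⟩ := extend j y
    rw [← hx, ← hy', ← Ext.mk₀_comp_mk₀]
    rw [← Ext.comp_assoc_of_third_deg_zero]
    rw [ShortComplex.ShortExact.extClass_comp, Ext.zero_comp]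
  · have := projective_M (k := k) i hi
    exact Ext.eq_zero_of_projective _


theorem sup4_ne {i j : Fin 4} (h : j < i) : ∃ v, sup4 i v ∧ ¬ sup4 j v := by
  fin_cases i <;> fin_cases j <;> first
    | (exact absurd h (by decide))
    | (refine ⟨D4.o, ?_, ?_⟩ <;> simp [sup4] <;> done)
    | (refine ⟨D4.a, ?_, ?_⟩ <;> simp [sup4] <;> done)
    | (refine ⟨D4.b, ?_, ?_⟩ <;> simp [sup4])

theorem exceptionalSequence_M : IsExceptionalSequence (M k) where
  exceptional := fun i =>
    { finite := finite_M i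
      indecomposable := indecomposable_M i
      rigid := ext_M i i }
  hom_zero := fun i j hij f => hom_M_zero (sup4_ne hij) f
  ext_zero := fun _ _ _ e => ext_M _ _ e

theorem exceptionalCollection_M : IsExceptionalCollection (M k) :=
  ⟨Equiv.refl _, exceptionalSequence_M⟩

theorem finite_hom_M (i j : Fin 4) : Module.Finite k (M k i ⟶ M k j) := by
  by_cases h : ∀ v, sup4 i v → sup4 j v
  · have h1 : Function.Surjective (LinearMap.toSpanSingleton k (M k i ⟶ M k j)
        (incl (up_sup4 i) (up_sup4 j) h)) := by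
      intro f
      obtain ⟨c, hc⟩ := hom_M_scalar h f
      exact ⟨c, hc.symm⟩
    exact Module.Finite.of_surjective _ h1
  · have h2 : ∃ v, sup4 i v ∧ ¬ sup4 j v := by
      push Not at h
      exact h
    have : Subsingleton (M k i ⟶ M k j) :=
      ⟨fun f g => by rw [hom_M_zero h2 f, hom_M_zero h2 g]⟩
    infer_instance

theorem finite_ext_M (i j : Fin 4) : Module.Finite k (Ext.{u + 1} (M k i) (M k j) 1) := by
  have : Subsingleton (Ext.{u + 1} (M k i) (M k j) 1) :=
    ⟨fun f g => by rw [ext_M i j f, ext_M i j g]⟩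
  infer_instance

theorem nonempty_presentation_M : Nonempty (Presentation k (M k)) :=
  exists_presentation finite_hom_M finite_ext_M

theorem mem_rad_of_ne {i j : Fin 4} (hij : i ≠ j) (f : M k i ⟶ M k j) :
    f ∈ rad k (M k i) (M k j) := by
  rw [mem_rad]
  intro g
  have h : f ≫ g = 0 := by
    rcases lt_or_gt_of_ne hij with h | h
    · rw [hom_M_zero (sup4_ne h) g, comp_zero]
    · rw [hom_M_zero (sup4_ne h) f, zero_comp]
  rw [h, sub_zero]
  infer_instance

theorem rad_self {i : Fin 4} {f : M k i ⟶ M k i} (hf : f ∈ rad k (M k i) (M k i)) : f = 0 := by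
  rw [mem_rad] at hf
  obtain ⟨c, hc⟩ := end_M_scalar i f
  by_cases h0 : c = 0
  · rw [hc, h0, zero_smul]
  · exfalso
    have h1 := hf (c⁻¹ • 𝟙 (M k i))
    have h2 : 𝟙 (M k i) - f ≫ (c⁻¹ • 𝟙 (M k i)) = 0 := by
      rw [hc, Linear.comp_smul, Linear.smul_comp, Category.comp_id, smul_smul,
        inv_mul_cancel₀ h0, one_smul, sub_self]
    rw [h2] at h1
    apply id_M_ne_zero (k := k) i
    have h3 := IsIso.hom_inv_id (0 : M k i ⟶ M k i)
    rw [zero_comp] at h3
    exact h3.symm

/-- no composition of radical morphisms in degree one of the square -/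
theorem radSq_eq_bot {i j : Fin 4}
    (h : ∀ l : Fin 4, l ≠ i → l ≠ j → (∃ v, sup4 i v ∧ ¬ sup4 l v) ∨ ∃ v, sup4 l v ∧ ¬ sup4 j v) :
    radSq k (M k) i j = ⊥ := by
  rw [radSq, Submodule.span_eq_bot]
  rintro x ⟨l, f, g, hf, hg, rfl⟩
  by_cases h1 : l = i
  · subst h1
    rw [rad_self hf, zero_comp]
  · by_cases h2 : l = j
    · subst h2
      rw [rad_self hg, comp_zero]
    · rcases h l h1 h2 with h3 | h3
      · rw [hom_M_zero h3 f, zero_comp]
      · rw [hom_M_zero h3 g, comp_zero]

theorem exists_arrow (P : Presentation k (M k)) {i j : Fin 4} (hij : i ≠ j)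
    (hs : ∀ v, sup4 i v → sup4 j v) (h : radSq k (M k) i j = ⊥) :
    ∃ (a : P.homArr i j) (c : k), c ≠ 0 ∧ P.homVal a = c • incl (up_sup4 i) (up_sup4 j) hs := by
  by_contra hcon
  push Not at hcon
  have h1 : ∀ a : P.homArr i j, P.homVal a = 0 := by
    intro a
    obtain ⟨c, hc⟩ := hom_M_scalar hs (P.homVal a)
    by_cases h0 : c = 0
    · rw [hc, h0, zero_smul]
    · exact absurd hc (hcon a c h0)
  have h2 := (P.hom_basis i j).2.2
  rw [h, sup_bot_eq] at h2
  have h3 : incl (up_sup4 i) (up_sup4 j) hs ∈ rad k (M k i) (M k j) := mem_rad_of_ne hij _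
  rw [← h2] at h3
  have h4 : Submodule.span k (Set.range (@Presentation.homVal _ _ _ _ _ _ _ _ _ P i j)) = ⊥ := by
    rw [Submodule.span_eq_bot]
    rintro x ⟨a, rfl⟩
    exact h1 a
  rw [h4, Submodule.mem_bot] at h3
  exact incl_ne_zero hs h3

theorem not_generated (P : Presentation k (M k)) : ¬ GeneratedByMonomials k P.R := by
  intro hgen
  have s01 : ∀ v, sup4 0 v → sup4 1 v := by
    rintro v rfl
    simp [sup4]
  have s02 : ∀ v, sup4 0 v → sup4 2 v := by
    rintro v rfl
    simp [sup4]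
  have s13 : ∀ v, sup4 1 v → sup4 3 v := fun _ _ => trivial
  have s23 : ∀ v, sup4 2 v → sup4 3 v := fun _ _ => trivial
  have wit : ∀ l : Fin 4, (l = 2 ∨ l = 3) → ∃ v, sup4 l v ∧ ¬ sup4 1 v := by
    rintro l (rfl | rfl) <;> exact ⟨D4.b, by simp [sup4], by simp [sup4]⟩
  have wit2 : ∀ l : Fin 4, (l = 1 ∨ l = 3) → ∃ v, sup4 l v ∧ ¬ sup4 2 v := by
    rintro l (rfl | rfl) <;> exact ⟨D4.a, by simp [sup4], by simp [sup4]⟩
  have r01 : radSq k (M k) 0 1 = ⊥ := radSq_eq_bot (by
    intro l h1 h2
    right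
    apply wit
    fin_cases l <;> simp_all)
  have r02 : radSq k (M k) 0 2 = ⊥ := radSq_eq_bot (by
    intro l h1 h2
    right
    apply wit2
    fin_cases l <;> simp_all)
  have r13 : radSq k (M k) 1 3 = ⊥ := radSq_eq_bot (by
    intro l h1 h2
    left
    have h3 : l = 0 ∨ l = 2 := by fin_cases l <;> simp_all
    rcases h3 with rfl | rfl
    · exact ⟨D4.o, by simp [sup4], by simp [sup4]⟩
    · exact ⟨D4.a, by simp [sup4], by simp [sup4]⟩)
  have r23 : radSq k (M k) 2 3 = ⊥ := radSq_eq_bot (by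
    intro l h1 h2
    left
    have h3 : l = 0 ∨ l = 1 := by fin_cases l <;> simp_all
    rcases h3 with rfl | rfl
    · exact ⟨D4.o, by simp [sup4], by simp [sup4]⟩
    · exact ⟨D4.b, by simp [sup4], by simp [sup4]⟩)
  obtain ⟨a, ca, ha0, ha⟩ := exists_arrow P (by decide) s01 r01
  obtain ⟨b, cb, hb0, hb⟩ := exists_arrow P (by decide) s13 r13
  obtain ⟨c, cc, hc0, hc⟩ := exists_arrow P (by decide) s02 r02
  obtain ⟨d, cd, hd0, hd⟩ := exists_arrow P (by decide) s23 r23
  let v0 : P.Vert := (0 : Fin 4)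
  let v1 : P.Vert := (1 : Fin 4)
  let v2 : P.Vert := (2 : Fin 4)
  let v3 : P.Vert := (3 : Fin 4)
  let p : Quiver.Path v0 v3 :=
    ((Quiver.Path.nil : Quiver.Path v0 v0).cons (Sum.inl a : v0 ⟶ v1)).cons (Sum.inl b : v1 ⟶ v3)
  let q : Quiver.Path v0 v3 :=
    ((Quiver.Path.nil : Quiver.Path v0 v0).cons (Sum.inl c : v0 ⟶ v2)).cons (Sum.inl d : v2 ⟶ v3)
  have hpq : p ≠ q := by
    intro h
    have h1 : v1 = v2 := Quiver.Path.obj_eq_of_cons_eq_cons h
    have h2 : (1 : Fin 4) = 2 := h1
    exact absurd h2 (by decide)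
  have s03 : ∀ v, sup4 0 v → sup4 3 v := fun _ _ => trivial
  have hp : P.eval p = ((ca * cb) • incl (up_sup4 0) (up_sup4 3) s03, 0) := by
    refine Prod.ext ?_ ?_
    · show (𝟙 (M k 0) ≫ P.homVal a) ≫ P.homVal b = _
      rw [Category.id_comp, ha, hb, Linear.comp_smul, Linear.smul_comp, incl_comp, smul_smul,
        mul_comm]
    · show ((0 : Ext.{u + 1} (M k 0) (M k 0) 1).comp (Ext.mk₀ (P.homVal a)) (add_zero 1)).comp
        (Ext.mk₀ (P.homVal b)) (add_zero 1) = 0
      rw [Ext.zero_comp, Ext.zero_comp]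
  have hq : P.eval q = ((cc * cd) • incl (up_sup4 0) (up_sup4 3) s03, 0) := by
    refine Prod.ext ?_ ?_
    · show (𝟙 (M k 0) ≫ P.homVal c) ≫ P.homVal d = _
      rw [Category.id_comp, hc, hd, Linear.comp_smul, Linear.smul_comp, incl_comp, smul_smul,
        mul_comm]
    · show ((0 : Ext.{u + 1} (M k 0) (M k 0) 1).comp (Ext.mk₀ (P.homVal c)) (add_zero 1)).comp
        (Ext.mk₀ (P.homVal d)) (add_zero 1) = 0
      rw [Ext.zero_comp, Ext.zero_comp]
  let r : Quiver.Path v0 v3 →₀ k :=
    Finsupp.single p (cc * cd) - Finsupp.single q (ca * cb)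
  have hr : r ∈ P.R v0 v3 := by
    rw [Presentation.mem_R, map_sub, Finsupp.linearCombination_single,
      Finsupp.linearCombination_single, hp, hq]
    refine Prod.ext ?_ ?_
    · show (cc * cd) • ((ca * cb) • incl (up_sup4 0) (up_sup4 3) s03) -
        (ca * cb) • ((cc * cd) • incl (up_sup4 0) (up_sup4 3) s03) = 0
      rw [smul_smul, smul_smul, mul_comm, sub_self]
    · show (cc * cd) • (0 : Ext.{u + 1} (M k 0) (M k 3) 1) - (ca * cb) • 0 = 0
      rw [smul_zero, smul_zero, sub_zero]
  have hrp : r p ≠ 0 := by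
    have h1 : r p = cc * cd := by
      show (Finsupp.single p (cc * cd) - Finsupp.single q (ca * cb)) p = cc * cd
      rw [Finsupp.sub_apply, Finsupp.single_eq_same, Finsupp.single_eq_of_ne hpq, sub_zero]
    rw [h1]
    exact mul_ne_zero hc0 hd0
  have hmem := single_mem_of_generated P.Rideal hgen hr hrp
  have hmem2 : Finsupp.single p (1 : k) ∈ P.R v0 v3 := hmem
  rw [Presentation.mem_R, Finsupp.linearCombination_single, one_smul, hp] at hmem2
  have h3 : (ca * cb) • incl (up_sup4 0) (up_sup4 3) s03 = 0 := congrArg Prod.fst hmem2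
  rcases smul_eq_zero.mp h3 with h4 | h4
  · exact mul_ne_zero ha0 hb0 h4
  · exact incl_ne_zero s03 h4

end L7h26.HomExt
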