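import Mathlib

/-!
# Hom-Ext quivers of exceptional collections: general definitions

`k` is a field, `C` a `k`-linear abelian category (later: the representations of a quiver).
-/

open CategoryTheory CategoryTheory.Limits CategoryTheory.Abelian

noncomputable section

namespace L7h26.HomExt

universe u v w t x

/-- `b` is a family of elements of `U` which is a basis of `U` modulo `W`. -/
def IsBasisMod {k : Type u} [Field k] {V : Type v} [AddCommGroup V] [Module k V]
    (W U : Submodule k V) {A : Type} (b : A → V) : Prop :=
  (∀ a, b a ∈ U) ∧ LinearIndependent k (fun a => W.mkQ (b a)) ∧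
    Submodule.span k (Set.range b) ⊔ W = U

section General

variable (k : Type u) [Field k] {C : Type v} [Category.{w} C] [Abelian C] [Linear k C]

/-- The radical of the category: all `f : X ⟶ Y` such that `1 - f g` is invertible for every
`g : Y ⟶ X` (for indecomposable objects with local endomorphism ring: the non-isomorphisms). -/
def rad (X Y : C) : Submodule k (X ⟶ Y) where
  carrier := {f | ∀ g : Y ⟶ X, IsIso (𝟙 X - f ≫ g)}
  zero_mem' := by
    intro g
    simp only [zero_comp, sub_zero]
    infer_instance
  smul_mem' := by
    intro c f hf g
    have := hf (c • g)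
    simpa using this
  add_mem' := by
    intro f f' hf hf' g
    have h1 := hf g
    have h2 := hf' (g ≫ inv (𝟙 X - f ≫ g))
    have h3 : 𝟙 X - (f + f') ≫ g
        = (𝟙 X - f' ≫ (g ≫ inv (𝟙 X - f ≫ g))) ≫ (𝟙 X - f ≫ g) := by
      rw [Preadditive.sub_comp (𝟙 X) (f' ≫ (g ≫ inv (𝟙 X - f ≫ g)))]
      simp only [Category.assoc, IsIso.inv_hom_id, Category.id_comp, Category.comp_id,
        Preadditive.add_comp]
      abel
    show IsIso (𝟙 X - (f + f') ≫ g)
    rw [h3]
    infer_instance

variable {ι : Type x} (X : ι → C)

/-- The compositions of two radical morphisms through a member of the collection. -/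
def radComp (i j : ι) : Set (X i ⟶ X j) :=
  {h | ∃ (l : ι) (f : X i ⟶ X l) (g : X l ⟶ X j),
    f ∈ rad k (X i) (X l) ∧ g ∈ rad k (X l) (X j) ∧ h = f ≫ g}

/-- The square of the radical of the collection: spanned by the compositions of two radical
morphisms through members of the collection. -/
def radSq (i j : ι) : Submodule k (X i ⟶ X j) :=
  Submodule.span k (radComp k X i j)

variable [HasExt.{t} C]

/-- The pull-backs of extensions between members along radical morphisms. -/
def pullBacks (i j : ι) : Set (Ext.{t} (X i) (X j) 1) :=
  {e | ∃ (l : ι) (f : X i ⟶ X l) (y : Ext.{t} (X l) (X j) 1),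
    f ∈ rad k (X i) (X l) ∧ e = (Ext.mk₀ f).comp y (zero_add 1)}

/-- The push-forwards of extensions between members along radical morphisms. -/
def pushForwards (i j : ι) : Set (Ext.{t} (X i) (X j) 1) :=
  {e | ∃ (l : ι) (y : Ext.{t} (X i) (X l) 1) (g : X l ⟶ X j),
    g ∈ rad k (X l) (X j) ∧ e = y.comp (Ext.mk₀ g) (add_zero 1)}

/-- The decomposable extensions: spanned by pull-backs and push-forwards of extensions between
members of the collection along radical morphisms. -/
def radExt (i j : ι) : Submodule k (Ext.{t} (X i) (X j) 1) :=
  Submodule.span k (pullBacks k X i j ∪ pushForwards k X i j)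

/-- A presentation of `End (X ⊕ Σ X)` by a quiver: for each pair of members, hom-type arrows
`X i → X j` (radical morphisms forming a basis modulo the square of the radical; the arrows
`Σ X i → Σ X j` are their shifts) and extension-type arrows `X i → Σ X j` (extensions forming a
basis modulo the decomposable ones). -/
structure Presentation where
  /-- the hom-type arrows -/
  homArr : ι → ι → Type
  /-- the extension-type arrows -/
  extArr : ι → ι → Type
  /-- the morphism of a hom-type arrow -/
  homVal : ∀ {i j : ι}, homArr i j → (X i ⟶ X j)
  /-- the extension of an extension-type arrow -/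
  extVal : ∀ {i j : ι}, extArr i j → Ext.{t} (X i) (X j) 1
  hom_basis : ∀ i j : ι, IsBasisMod (radSq k X i j) (rad k (X i) (X j)) (@homVal i j)
  ext_basis : ∀ i j : ι, IsBasisMod (radExt k X i j) ⊤ (@extVal i j)

/-- The space `Hom(X_i, X_j) ⊕ Ext^1(X_i, X_j)`. -/
abbrev HE (i j : ι) : Type (max w t) := (X i ⟶ X j) × Ext.{t} (X i) (X j) 1

namespace Presentation

variable {k} {X}

/-- The vertices of the quiver `Q^χ`: the members of the collection. -/
def Vert (_ : Presentation.{u, v, w, t, x} k X) : Type x := ι

/-- The quiver `Q^χ`: its arrows `i → j` are the hom-type and the extension-type arrows. -/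
instance (P : Presentation.{u, v, w, t, x} k X) : Quiver.{0} P.Vert :=
  ⟨fun i j => P.homArr i j ⊕ P.extArr i j⟩

/-- Composition with a hom-type arrow. -/
def compHom (P : Presentation.{u, v, w, t, x} k X) {i j l : ι} (y : HE.{v, w, t, x} X i j)
    (a : P.homArr j l) : HE.{v, w, t, x} X i l :=
  (y.1 ≫ P.homVal a, y.2.comp (Ext.mk₀ (P.homVal a)) (add_zero 1))

/-- Composition with an extension-type arrow; two extensions compose to zero. -/
def compExt (P : Presentation.{u, v, w, t, x} k X) {i j l : ι} (y : HE.{v, w, t, x} X i j)
    (e : P.extArr j l) : HE.{v, w, t, x} X i l :=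
  (0, (Ext.mk₀ y.1).comp (P.extVal e) (zero_add 1))

/-- The morphism or extension represented by a path of `Q^χ`, in `Hom ⊕ Ext^1`: the trivial path
represents the identity, and arrows are composed successively. -/
def eval (P : Presentation.{u, v, w, t, x} k X) {i j : P.Vert} (p : Quiver.Path i j) :
    HE.{v, w, t, x} X i j :=
  Quiver.Path.rec (motive := fun (l : P.Vert) (_ : Quiver.Path i l) => HE.{v, w, t, x} X i l)
    (𝟙 (X i), 0) (fun {_ _} _ a y => Sum.elim (P.compHom y) (P.compExt y) a) p

/-- The relations: the component at `(i, j)` of the ideal `R`, the linear combinations of paths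
`i → j` of `Q^χ` which represent zero. -/
def R (P : Presentation.{u, v, w, t, x} k X) (i j : P.Vert) :
    Submodule k (Quiver.Path i j →₀ k) :=
  LinearMap.ker (Finsupp.linearCombination k (fun p : Quiver.Path i j => P.eval p))

end Presentation

end General

section Ideals

variable {k : Type u} [Field k] {V : Type v} [Quiver.{w} V]

/-- The product of a path and a linear combination of paths. -/
def leftMul {i j l : V} (p : Quiver.Path i j) (r : Quiver.Path j l →₀ k) :
    Quiver.Path i l →₀ k :=
  Finsupp.mapDomain (fun q => p.comp q) r

/-- The product of a linear combination of paths and a path. -/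
def rightMul {i j l : V} (r : Quiver.Path i j →₀ k) (q : Quiver.Path j l) :
    Quiver.Path i l →₀ k :=
  Finsupp.mapDomain (fun p => p.comp q) r

/-- The family `I` of subspaces is stable under left multiplication with paths. -/
def LeftStable (I : ∀ i j : V, Submodule k (Quiver.Path i j →₀ k)) : Prop :=
  ∀ (i j l : V) (p : Quiver.Path i j), ∀ r ∈ I j l, leftMul p r ∈ I i l

/-- The family `I` of subspaces is stable under right multiplication with paths. -/
def RightStable (I : ∀ i j : V, Submodule k (Quiver.Path i j →₀ k)) : Prop :=
  ∀ (i j l : V) (q : Quiver.Path j l), ∀ r ∈ I i j, rightMul r q ∈ I i l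

variable (k) (V)

/-- A two-sided ideal of the path algebra `k V` of a quiver `V`, given by its components:
subspaces of the spans of the paths `i → j`, stable under composition with paths. -/
structure PathIdeal where
  /-- the components -/
  comp : ∀ i j : V, Submodule k (Quiver.Path i j →₀ k)
  left_stable : LeftStable comp
  right_stable : RightStable comp

variable {V}

/-- The family `I` of subspaces contains the paths in `S`. -/
def ContainsPaths (S : ∀ i j : V, Set (Quiver.Path i j))
    (I : ∀ i j : V, Submodule k (Quiver.Path i j →₀ k)) : Prop :=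
  ∀ i j, ∀ s ∈ S i j, Finsupp.single s (1 : k) ∈ I i j

/-- The family `I` of subspaces is the ideal of the path algebra generated by a set of paths of
length at least two (monomial relations): it contains them, and is contained in every ideal that
contains them. -/
def GeneratedByMonomials (I : ∀ i j : V, Submodule k (Quiver.Path i j →₀ k)) : Prop :=
  ∃ S : ∀ i j : V, Set (Quiver.Path i j),
    (∀ i j, ∀ s ∈ S i j, 2 ≤ s.length) ∧ ContainsPaths k S I ∧
    ∀ J : PathIdeal k V, ContainsPaths k S J.comp → ∀ i j, I i j ≤ J.comp i j

end Ideals

end L7h26.HomExt
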