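import Pool.Agent.L7h26.HomExtDefs

open CategoryTheory CategoryTheory.Limits CategoryTheory.Abelian

noncomputable section

namespace L7h26.HomExt

universe u

/-- The category of representations over `k` of the quiver `Q` (`k Q`-modules). -/
abbrev Rep (k : Type u) [Field k] (Q : Type) [Quiver.{0} Q] : Type (u + 1) :=
  Paths Q ⥤ ModuleCat.{u} k

instance hasExtRep (k : Type u) [Field k] (Q : Type) [Quiver.{0} Q] :
    HasExt.{u + 1} (Rep k Q) := HasExt.standard _

variable {k : Type u} [Field k] {Q : Type} [Quiver.{0} Q]

/-- Exceptional modules: finite-dimensional, indecomposable, without self-extensions. -/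
structure IsExceptional (E : Rep k Q) : Prop where
  finite : ∀ v : Q, Module.Finite k (E.obj v)
  indecomposable : Indecomposable E
  rigid : ∀ e : Ext.{u + 1} E E 1, e = 0

/-- Exceptional sequences. -/
structure IsExceptionalSequence {m : ℕ} (E : Fin m → Rep k Q) : Prop where
  exceptional : ∀ i, IsExceptional (E i)
  hom_zero : ∀ i j, j < i → ∀ f : E i ⟶ E j, f = 0
  ext_zero : ∀ i j, j < i → ∀ e : Ext.{u + 1} (E i) (E j) 1, e = 0

/-- Exceptional collections: the members can be ordered to an exceptional sequence. -/
def IsExceptionalCollection {m : ℕ} (X : Fin m → Rep k Q) : Prop :=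
  ∃ σ : Equiv.Perm (Fin m), IsExceptionalSequence (fun i => X (σ i))

/-- A finite acyclic quiver: finitely many vertices and arrows, and no closed paths of positive
length. -/
structure FiniteAcyclic (Q : Type) [Quiver.{0} Q] : Prop where
  vertices : Finite Q
  arrows : ∀ v w : Q, Finite (v ⟶ w)
  acyclic : ∀ (v : Q) (p : Quiver.Path v v), p = Quiver.Path.nil

end L7h26.HomExt
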