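import Pool.Agent.L7h26.HomExtRep

open CategoryTheory CategoryTheory.Limits CategoryTheory.Abelian

noncomputable section

set_option backward.isDefEq.respectTransparency false
set_option backward.isDefEq.respectTransparency.types false

namespace L7h26.HomExt

universe u

/-- `k` if `p` holds, `0` otherwise, as a submodule of `k` -/
def supp (k : Type u) [Field k] (p : Prop) : Submodule k k where
  carrier := {x | p ∨ x = 0}
  zero_mem' := Or.inr rfl
  add_mem' := by
    rintro a b (h | h) (h' | h')
    · exact Or.inl h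
    · exact Or.inl h
    · exact Or.inl h'
    · right; simp [h, h']
  smul_mem' := by
    rintro c a (h | h)
    · exact Or.inl h
    · right; simp [h]

theorem mem_supp {k : Type u} [Field k] {p : Prop} {x : k} : x ∈ supp k p ↔ p ∨ x = 0 := Iff.rfl

theorem supp_mono (k : Type u) [Field k] {p q : Prop} (h : p → q) : supp k p ≤ supp k q := by
  rintro x (hx | hx)
  · exact Or.inl (h hx)
  · exact Or.inr hx

variable (k : Type u) [Field k] {Q : Type} [Quiver.{0} Q]

/-- sets of vertices closed under arrows -/
def Up (S : Q → Prop) : Prop := ∀ {v w : Q} (_ : v ⟶ w), S v → S w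

/-- the representation `k` on `S`, with identity maps -/
def sub (S : Q → Prop) (hS : Up S) : Rep k Q :=
  Paths.lift
    { obj := fun v => ModuleCat.of k (supp k (S v))
      map := fun a => ModuleCat.ofHom (Submodule.inclusion (supp_mono k (hS a))) }

variable {k}
variable {S T : Q → Prop} {hS : Up S} {hT : Up T}

/-- the underlying scalar -/
def val {v : Q} (x : (sub k S hS).obj v) : k := (show supp k (S v) from x).1

theorem val_inj {v : Q} {x y : (sub k S hS).obj v} (h : val x = val y) : x = y := Subtype.ext h

/-- element with given scalar -/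
def elt (hS : Up S) {v : Q} (c : k) (h : S v ∨ c = 0) : (sub k S hS).obj v := (⟨c, h⟩ : supp k (S v))

@[simp] theorem val_elt {v : Q} (c : k) (h : S v ∨ c = 0) : val (elt hS c h) = c := rfl

theorem val_add {v : Q} (x y : (sub k S hS).obj v) : val (x + y) = val x + val y := rfl
theorem val_smul {v : Q} (c : k) (x : (sub k S hS).obj v) : val (c • x) = c * val x := rfl
theorem val_zero {v : Q} : val (0 : (sub k S hS).obj v) = 0 := rfl
theorem val_prop {v : Q} (x : (sub k S hS).obj v) : S v ∨ val x = 0 := (show supp k (S v) from x).2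

theorem map_arrow {v w : Q} (a : v ⟶ w) :
    (sub k S hS).map (Quiver.Hom.toPath a) =
      ModuleCat.ofHom (Submodule.inclusion (supp_mono k (hS a))) :=
  Paths.lift_toPath _ a

theorem val_map_arrow {v w : Q} (a : v ⟶ w) (x : (sub k S hS).obj v) :
    val ((sub k S hS).map (Quiver.Hom.toPath a) x) = val x := by
  rw [map_arrow]
  rfl

theorem val_map {v w : Q} (p : Quiver.Path v w) (x : (sub k S hS).obj v) :
    val ((sub k S hS).map (X := v) (Y := w) p x) = val x := by
  induction p with
  | nil =>
    have h := (sub k S hS).map_id v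
    have h2 : (sub k S hS).map (X := v) (Y := v) (Quiver.Path.nil : Quiver.Path v v) = 𝟙 _ := h
    rw [h2]
    rfl
  | cons p a ih =>
    have h : (sub k S hS).map (p.cons a) = (sub k S hS).map p ≫ (sub k S hS).map (Quiver.Hom.toPath a) :=
      (sub k S hS).map_comp p (Quiver.Hom.toPath a)
    rw [h, ModuleCat.comp_apply, val_map_arrow, ih]


/-- a morphism out of `sub` from a compatible family of elements -/
def homOfElts (hS : Up S) (E : Rep k Q) (e : ∀ v : Q, E.obj v)
    (he : ∀ {v w : Q} (a : v ⟶ w), S v → E.map (Quiver.Hom.toPath a) (e v) = e w) :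
    sub k S hS ⟶ E :=
  Paths.liftNatTrans
    (fun v => ModuleCat.ofHom (X := supp k (S v)) (Y := E.obj v)
      (LinearMap.toSpanSingleton k (E.obj v) (e v) ∘ₗ (supp k (S v)).subtype))
    (by
      intro v w a
      rw [map_arrow]
      ext x
      rcases val_prop x with h | h
      · have h2 := he a h
        show val x • e w = E.map (Quiver.Hom.toPath a) (val x • e v)
        rw [map_smul, h2]
      · show val x • e w = E.map (Quiver.Hom.toPath a) (val x • e v)
        rw [map_smul, h, zero_smul, zero_smul])

theorem homOfElts_app (hS : Up S) (E : Rep k Q) (e : ∀ v : Q, E.obj v)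
    (he : ∀ {v w : Q} (a : v ⟶ w), S v → E.map (Quiver.Hom.toPath a) (e v) = e w)
    (v : Q) (x : (sub k S hS).obj v) :
    (homOfElts hS E e he).app v x = val x • e v := rfl

theorem hom_ext {E : Rep k Q} {f g : sub k S hS ⟶ E}
    (h : ∀ v (hv : S v), f.app v (elt hS 1 (Or.inl hv)) = g.app v (elt hS 1 (Or.inl hv))) :
    f = g := by
  ext v x
  rcases val_prop x with hv | hx
  · have h1 : x = val x • elt hS (1 : k) (Or.inl hv) := by
      apply val_inj
      rw [val_smul, val_elt, mul_one]
    rw [h1, map_smul, map_smul, h v hv]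
  · have h1 : x = 0 := val_inj (by rw [hx, val_zero])
    rw [h1, map_zero, map_zero]

/-- the inclusion -/
def incl (hS : Up S) (hT : Up T) (h : ∀ v, S v → T v) : sub k S hS ⟶ sub k T hT :=
  Paths.liftNatTrans
    (fun v => ModuleCat.ofHom (Submodule.inclusion (supp_mono k (h v))))
    (by
      intro v w a
      rw [map_arrow, map_arrow]
      rfl)

theorem val_incl (h : ∀ v, S v → T v) (v : Q) (x : (sub k S hS).obj v) :
    val ((incl hS hT h).app v x) = val x := rfl

instance mono_incl (h : ∀ v, S v → T v) : Mono (incl (k := k) hS hT h) := by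
  constructor
  intro W f g hfg
  ext v x
  apply val_inj
  have h1 := congrArg (fun F => val (F.app v x)) hfg
  exact h1

theorem incl_comp {U : Q → Prop} {hU : Up U} (h : ∀ v, S v → T v) (h' : ∀ v, T v → U v) :
    incl (k := k) hS hT h ≫ incl hT hU h' = incl hS hU (fun v hv => h' v (h v hv)) := by
  ext v x
  apply val_inj
  rfl

/-- factorisation through a smaller support -/
theorem factor {W : Rep k Q} (h : ∀ v, S v → T v) (f : W ⟶ sub k T hT)
    (hf : ∀ v (x : W.obj v), S v ∨ val (f.app v x) = 0) :
    ∃ f' : W ⟶ sub k S hS, f' ≫ incl hS hT h = f := by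
  refine ⟨Paths.liftNatTrans
    (fun v => ModuleCat.ofHom (X := W.obj v) (Y := supp k (S v))
      (LinearMap.codRestrict (supp k (S v)) ((supp k (T v)).subtype ∘ₗ (f.app v).hom) (hf v)))
    ?_, ?_⟩
  · intro v w a
    ext x
    apply Subtype.ext
    have h1 := congrArg (fun F => val (F x)) (f.naturality (X := v) (Y := w) (Quiver.Hom.toPath a))
    have h2 : val (f.app w (W.map (Quiver.Hom.toPath a) x)) =
      val ((sub k T hT).map (Quiver.Hom.toPath a) (f.app v x)) := h1
    rw [val_map_arrow] at h2
    rw [map_arrow]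
    exact h2
  · ext v x
    apply val_inj
    rfl

/-- morphisms are scalars -/
theorem hom_scalar {z : Q} (hz : S z) (hp : ∀ v, S v → Nonempty (Quiver.Path v z))
    (f : sub k S hS ⟶ sub k T hT) :
    ∃ c : k, ∀ v (x : (sub k S hS).obj v), val (f.app v x) = c * val x := by
  refine ⟨val (f.app z (elt hS 1 (Or.inl hz))), ?_⟩
  intro v x
  rcases val_prop x with hv | hx
  · obtain ⟨p⟩ := hp v hv
    have h1 := congrArg (fun F => val (F x)) (f.naturality (X := v) (Y := z) p)
    have h2 : val (f.app z ((sub k S hS).map (X := v) (Y := z) p x)) =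
      val ((sub k T hT).map (X := v) (Y := z) p (f.app v x)) := h1
    rw [val_map] at h2
    have h3 : (sub k S hS).map (X := v) (Y := z) p x = val x • elt hS 1 (Or.inl hz) := by
      apply val_inj
      rw [val_map, val_smul, val_elt, mul_one]
    rw [h3, map_smul, val_smul] at h2
    rw [← h2, mul_comm]
  · have h1 : x = 0 := val_inj (by rw [hx, val_zero])
    rw [h1, map_zero, val_zero, val_zero, mul_zero]

theorem hom_zero_of_scalar {f : sub k S hS ⟶ sub k T hT} {c : k}
    (hc : ∀ v (x : (sub k S hS).obj v), val (f.app v x) = c * val x) {v : Q} (hv : S v)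
    (hv' : ¬ T v) : c = 0 := by
  have h1 := hc v (elt hS 1 (Or.inl hv))
  rw [val_elt, mul_one] at h1
  rcases val_prop (f.app v (elt hS 1 (Or.inl hv))) with h | h
  · exact absurd h hv'
  · rw [← h1, h]

theorem eq_smul_incl {f : sub k S hS ⟶ sub k T hT} {c : k}
    (hc : ∀ v (x : (sub k S hS).obj v), val (f.app v x) = c * val x) (h : ∀ v, S v → T v) :
    f = c • incl hS hT h := by
  ext v x
  apply val_inj
  rw [hc]
  rfl

theorem eq_zero_of {f : sub k S hS ⟶ sub k T hT}
    (hc : ∀ v (x : (sub k S hS).obj v), val (f.app v x) = 0 * val x) : f = 0 := by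
  ext v x
  apply val_inj
  rw [hc, zero_mul]
  rfl

/-- projectivity of the representations generated at one vertex -/
theorem projective_sub (v0 : Q) (hS0 : ∀ w, S w ↔ Nonempty (Quiver.Path v0 w))
    (huniq : ∀ w, Subsingleton (Quiver.Path v0 w)) : Projective (sub k S hS) := by
  classical
  constructor
  intro E F f e he
  have hv0 : S v0 := (hS0 v0).mpr ⟨Quiver.Path.nil⟩
  have hsurj : Function.Surjective (e.app v0) := by
    have : Epi (e.app v0) := inferInstance
    exact (ModuleCat.epi_iff_surjective _).mp this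
  obtain ⟨y, hy⟩ := hsurj (f.app v0 (elt hS 1 (Or.inl hv0)))
  let ew : ∀ w : Q, E.obj w := fun w =>
    if h : Nonempty (Quiver.Path v0 w) then E.map (X := v0) (Y := w) h.some y else 0
  have hew : ∀ {w : Q} (p : Quiver.Path v0 w), ew w = E.map (X := v0) (Y := w) p y := by
    intro w p
    have h : Nonempty (Quiver.Path v0 w) := ⟨p⟩
    have h2 : h.some = p := (huniq w).elim _ _
    simp only [ew, dif_pos h, h2]
  refine ⟨homOfElts hS E ew ?_, ?_⟩
  · intro v w a hv
    obtain ⟨p⟩ := (hS0 v).mp hv
    rw [hew p, hew (p.cons a)]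
    have h : E.map (X := v0) (Y := w) (p.cons a) =
      E.map (X := v0) (Y := v) p ≫ E.map (Quiver.Hom.toPath a) :=
      E.map_comp p (Quiver.Hom.toPath a)
    rw [h]
    rfl
  · apply hom_ext
    intro v hv
    obtain ⟨p⟩ := (hS0 v).mp hv
    show e.app v ((homOfElts hS E ew _).app v (elt hS 1 (Or.inl hv))) = _
    rw [homOfElts_app, val_elt, one_smul, hew p]
    have h1 := congrArg (fun G => G y) (e.naturality (X := v0) (Y := v) p)
    have h2 : e.app v (E.map (X := v0) (Y := v) p y) = F.map (X := v0) (Y := v) p (e.app v0 y) := h1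
    rw [h2, hy]
    have h3 := congrArg (fun G => G (elt hS (1 : k) (Or.inl hv0)))
      (f.naturality (X := v0) (Y := v) p)
    have h4 : f.app v ((sub k S hS).map (X := v0) (Y := v) p (elt hS (1 : k) (Or.inl hv0))) =
      F.map (X := v0) (Y := v) p (f.app v0 (elt hS (1 : k) (Or.inl hv0))) := h3
    rw [← h4]
    congr 1
    apply val_inj
    rw [val_map, val_elt, val_elt]

end L7h26.HomExt
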